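import Mathlib
import Pool.Agent.Helper205.BohrN
import Pool.Agent.Helper610.Bohr.Thr

set_option autoImplicit false

/-!
The Bohr-type radius `B(lam)` for analytic self-maps of the disk with prescribed value `lam` at
the origin.  The formula `B(lam) = 1/(1 + 2 lam)` holds exactly on an interval `[s, 1)` with
`11/30 < s ≤ 7/17`, and `(1 - lam)/2 ≤ B(lam)^2 ≤ 1/(2 (1 + lam))` for every `lam`.
-/

namespace Pool.Agent.Results.MP_187f6b_an.Sharp

open Metric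

/-- The class `F_lam`: analytic on the unit disk, `|f| < 1`, `f(0) = lam`. -/
def InClass (lam : ℝ) (f : ℂ → ℂ) : Prop :=
  DifferentiableOn ℂ f (ball 0 1) ∧ (∀ z ∈ ball (0 : ℂ) 1, ‖f z‖ < 1) ∧ f 0 = (lam : ℂ)

/-- The Taylor coefficients at the origin. -/
noncomputable def coeff (f : ℂ → ℂ) (n : ℕ) : ℂ := iteratedDeriv n f 0 / (n.factorial : ℂ)

/-- The majorant series `lam + ∑_{n ≥ 1} |a_n| r^n`. -/
noncomputable def majorant (lam : ℝ) (f : ℂ → ℂ) (r : ℝ) : ℝ :=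
  lam + ∑' n : ℕ, ‖coeff f (n + 1)‖ * r ^ (n + 1)

/-- The best constant `B(lam)`. -/
noncomputable def B (lam : ℝ) : ℝ :=
  sSup {r : ℝ | 0 ≤ r ∧ r < 1 ∧ ∀ f, InClass lam f → majorant lam f r ≤ 1}

theorem B_eq_B610 (l : ℝ) : B l = Pool.Agent.Helper610.Bohr.B l := rfl

theorem B_eq_B205 (l : ℝ) : B l = Pool.Agent.Helper205.Bohr.B l := rfl

/-- Sanity: the majorant series converges for every function of the class and `0 ≤ r < 1`. -/
theorem majorant_summable {lam : ℝ} {f : ℂ → ℂ} (hf : InClass lam f) {r : ℝ} (h0 : 0 ≤ r)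
    (h1 : r < 1) : Summable (fun n : ℕ => ‖coeff f (n + 1)‖ * r ^ (n + 1)) :=
  Pool.Agent.Helper610.Bohr.summable_maj hf h0 h1

/-- Sanity: `coeff f` is the sequence of Taylor coefficients. -/
theorem coeff_hasSum {lam : ℝ} {f : ℂ → ℂ} (hf : InClass lam f) {z : ℂ} (hz : ‖z‖ < 1) :
    HasSum (fun n : ℕ => coeff f n * z ^ n) (f z) :=
  Pool.Agent.Helper205.Bohr.ps_coeff hf.1 z hz

theorem result :
    (∃ s : ℝ, 11 / 30 < s ∧ s ≤ 7 / 17 ∧
      ∀ l : ℝ, 0 ≤ l → l < 1 → (B l = 1 / (1 + 2 * l) ↔ s ≤ l)) ∧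
    (∀ l₀ l : ℝ, 0 ≤ l₀ → l₀ ≤ l → l < 1 → (1 + 2 * l₀) * B l₀ ≤ (1 + 2 * l) * B l) ∧
    (∀ l : ℝ, 0 ≤ l → l < 1 →
      Real.sqrt ((1 - l) / 2) ≤ B l ∧ B l ≤ 1 / Real.sqrt (2 * (1 + l))) := by
  refine ⟨?_, ?_, ?_⟩
  · simp only [B_eq_B610]
    refine Pool.Agent.Helper610.Bohr.threshold (by norm_num) (by norm_num) ?_
    rw [← B_eq_B610, B_eq_B205]
    exact Pool.Agent.Helper205.Bohr.B_eq17 (le_refl _) (by norm_num)
  · intro l₀ l h0 h h1
    exact Pool.Agent.Helper610.Bohr.mul_B_mono h0 h h1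
  · intro l h0 h1
    have hlow := Pool.Agent.Helper205.Bohr.B_lower h0 h1
    have hup := Pool.Agent.Helper205.Bohr.B_upper h0 h1
    have hnn : 0 ≤ Pool.Agent.Helper205.Bohr.B l :=
      Pool.Agent.Helper610.Bohr.B_nonneg h1.le
    rw [B_eq_B205]
    constructor
    · rw [Real.sqrt_le_left hnn]
      exact hlow
    · rw [one_div, ← Real.sqrt_inv, ← one_div]
      exact Real.le_sqrt_of_sq_le hup

end Pool.Agent.Results.MP_187f6b_an.Sharp
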