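import Mathlib
import Pool.Agent.Helper610.Bohr.Thr

set_option autoImplicit false

/-!
The Bohr-type radius `B(lam)` for analytic self-maps of the disk with prescribed value `lam` at
the origin: Bombieri's formula `B(lam) = 1/(1 + 2 lam)` holds exactly from a threshold on, and
this threshold lies strictly between `11/30` and `7/16` (the right end allowed).
-/

namespace Pool.Agent.Results.MP_187f6b_an.Threshold

open Pool.Agent.Helper610.Bohr

/-- Sanity: the majorant series converges for every function of the class and `0 ≤ r < 1`. -/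
theorem majorant_summable {lam : ℝ} {f : ℂ → ℂ} (hf : InClass lam f) {r : ℝ} (h0 : 0 ≤ r)
    (h1 : r < 1) : Summable (fun n : ℕ => ‖coeff f (n + 1)‖ * r ^ (n + 1)) :=
  summable_maj hf h0 h1

/-- Sanity: `coeff f` is the sequence of Taylor coefficients. -/
theorem coeff_hasSum {lam : ℝ} {f : ℂ → ℂ} (hf : InClass lam f) {z : ℂ} (hz : ‖z‖ < 1) :
    HasSum (fun n : ℕ => coeff f n * z ^ n) (f z) :=
  hf.ps z hz

theorem result :
    (∀ l₀ l : ℝ, 0 ≤ l₀ → l₀ ≤ l → l < 1 → (1 + 2 * l₀) * B l₀ ≤ (1 + 2 * l) * B l) ∧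
    ∃ s : ℝ, 11 / 30 < s ∧ s ≤ 7 / 16 ∧
      ∀ l : ℝ, 0 ≤ l → l < 1 → (B l = 1 / (1 + 2 * l) ↔ s ≤ l) :=
  ⟨fun _ _ h0 h h1 => mul_B_mono h0 h h1,
    threshold (by norm_num) (by norm_num) (B_eq (le_refl _) (by norm_num))⟩

end Pool.Agent.Results.MP_187f6b_an.Threshold
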